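import Mathlib

/-!
# Weak ascent sequences avoiding 210 are counted by the semi-Baxter numbers

For every `n` the number of weak ascent sequences of length `n` that avoid `210` is the number of
permutations of `n` letters that avoid `2-41-3`.

Proof. Both families grow by appending a last entry, and both are generated by the succession rule
`(h, k) ↦ (1, k+1), …, (h, k+1), (h+1, k), …, (h+k, 1)` with the root `(1, 1)`. For a permutation `h` and
`k` are the numbers of the active sites below and above the last entry. For a sequence let `M` be the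
largest entry, `A` the largest entry that may be appended, and `m` the largest entry that is smaller
than some earlier entry (`m = 0` if there is none); then `(h, k) = (M - m + 1, A - M)` if `M` is the last
entry, and `(h, k) = (M - m, A - M + 1)` otherwise.
-/

set_option autoImplicit false

namespace Pool.Agent.Results.MP_5aad23_co.SemiBaxter

open Finset
open scoped Classical

/-- the number of weak ascents `a_j ≤ a_{j+1}` of the first `i` entries of `a` -/
noncomputable def wasc {n : ℕ} (a : Fin n → ℕ) (i : ℕ) : ℕ :=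
  Nat.card {j : Fin n // ∃ k : Fin n, k.val = j.val + 1 ∧ k.val < i ∧ a j ≤ a k}

/-- weak ascent sequences of length `n` (the entries are numbered from `0`): the first entry is `0`,
and each later entry `a i` is at most one more than the number of weak ascents before it -/
def IsWeakAscent {n : ℕ} (a : Fin n → ℕ) : Prop :=
  ∀ i : Fin n, (i.val = 0 → a i = 0) ∧ (i.val ≠ 0 → a i ≤ 1 + wasc a i.val)

/-- avoidance of the pattern `210` -/
def Avoids210 {n : ℕ} (a : Fin n → ℕ) : Prop :=
  ∀ i j k, i < j → j < k → ¬ (a k < a j ∧ a j < a i)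

/-- avoidance of the vincular pattern `2-41-3`: there are no `i < j` and `k > j + 1` with
`π (j+1) < π i < π k < π j` -/
def Avoids2413 {n : ℕ} (π : Equiv.Perm (Fin n)) : Prop :=
  ∀ i j j' k, i < j → j'.val = j.val + 1 → j' < k → ¬ (π j' < π i ∧ π i < π k ∧ π k < π j)

/-! ### The succession rule -/

/-- the number of the nodes `t` levels below a node with the label `(h, k)` -/
def cnt : ℕ → ℕ → ℕ → ℕ
  | 0, _, _ => 1
  | t + 1, h, k => ∑ r ∈ Icc 1 (h + k), cnt t r (if r ≤ h then k + 1 else h + k + 1 - r)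

lemma card_of_rule {α : Type} (X : ℕ → Finset α) (H K : ℕ → α → ℕ)
    (hbase : ∀ φ : ℕ → ℕ → ℕ, ∑ f ∈ X 1, φ (H 1 f) (K 1 f) = φ 1 1)
    (hrec : ∀ n, 1 ≤ n → ∀ φ : ℕ → ℕ → ℕ, ∑ f ∈ X (n + 1), φ (H (n + 1) f) (K (n + 1) f) =
      ∑ w ∈ X n, ∑ r ∈ Icc 1 (H n w + K n w),
        φ r (if r ≤ H n w then K n w + 1 else H n w + K n w + 1 - r)) (t : ℕ) :
    (X (t + 1)).card = cnt t 1 1 := by
  have key : ∀ t s, ∑ f ∈ X (t + 1), cnt s (H (t + 1) f) (K (t + 1) f) = cnt (s + t) 1 1 := by
    intro t
    induction t with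
    | zero => intro s; exact hbase (cnt s)
    | succ t ih =>
      intro s
      rw [hrec (t + 1) (by omega) (cnt s)]
      have := ih (s + 1)
      rw [show s + 1 + t = s + (t + 1) by omega] at this
      exact this
  have := key t 0
  rw [zero_add] at this
  rw [← this]
  simp [cnt]

/-- summation over a finite set of numbers by the rank -/
lemma sum_rank (S : Finset ℕ) (ψ : ℕ → ℕ) :
    ∑ a ∈ S, ψ (S.filter (· ≤ a)).card = ∑ r ∈ Icc 1 S.card, ψ r := by
  have hmono : ∀ a ∈ S, ∀ b ∈ S, a < b → (S.filter (· ≤ a)).card < (S.filter (· ≤ b)).card := by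
    intro a _ b hb hab
    refine card_lt_card ⟨fun x hx => ?_, fun h => ?_⟩
    · rw [mem_filter] at hx ⊢
      exact ⟨hx.1, hx.2.trans hab.le⟩
    · have h1 : b ∈ S.filter (· ≤ b) := mem_filter.2 ⟨hb, le_rfl⟩
      have := (mem_filter.1 (h h1)).2
      omega
  have hinj : Set.InjOn (fun a => (S.filter (· ≤ a)).card) (S : Set ℕ) := by
    intro a ha b hb hab
    rcases lt_trichotomy a b with h | h | h
    · have := hmono a ha b hb h
      dsimp only at hab
      omega
    · exact h
    · have := hmono b hb a ha h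
      dsimp only at hab
      omega
  have himg : S.image (fun a => (S.filter (· ≤ a)).card) = Icc 1 S.card := by
    apply eq_of_subset_of_card_le
    · intro r hr
      obtain ⟨a, ha, rfl⟩ := mem_image.1 hr
      rw [mem_Icc]
      refine ⟨card_pos.2 ⟨a, mem_filter.2 ⟨ha, le_rfl⟩⟩, card_le_card (filter_subset _ _)⟩
    · rw [card_image_of_injOn hinj, Nat.card_Icc]
      omega
  rw [← himg, sum_image hinj]

/-! ### Permutations as functions on `ℕ` -/

/-- append the value `a`; the values `≥ a` are shifted -/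
def app (n a : ℕ) (w : ℕ → ℕ) : ℕ → ℕ :=
  fun i => if i < n then (if w i < a then w i else w i + 1) else if i = n then a else 0

/-- permutations of `0, …, n - 1`, extended by zero -/
def IsP (n : ℕ) (w : ℕ → ℕ) : Prop :=
  (∀ i, n ≤ i → w i = 0) ∧ (∀ i, i < n → w i < n) ∧ ∀ i j, i < n → j < n → w i = w j → i = j

/-- all of them -/
noncomputable def PP : ℕ → Finset (ℕ → ℕ)
  | 0 => {fun _ => 0}
  | n + 1 => (PP n ×ˢ range (n + 1)).image fun p => app n p.2 p.1

lemma app_lt {n a : ℕ} {w : ℕ → ℕ} {i : ℕ} (h : i < n) :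
    app n a w i = if w i < a then w i else w i + 1 := by
  unfold app; rw [if_pos h]

lemma app_eq (n a : ℕ) (w : ℕ → ℕ) : app n a w n = a := by
  unfold app; rw [if_neg (by omega), if_pos rfl]

lemma app_gt {n a : ℕ} {w : ℕ → ℕ} {i : ℕ} (h : n < i) : app n a w i = 0 := by
  unfold app; rw [if_neg (by omega), if_neg (by omega)]

lemma mem_PP (n : ℕ) (f : ℕ → ℕ) : f ∈ PP n ↔ IsP n f := by
  induction n generalizing f with
  | zero =>
    rw [PP, mem_singleton]
    constructor
    · rintro rfl
      exact ⟨fun i _ => rfl, fun i hi => by omega, fun i j hi => by omega⟩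
    · intro h
      funext i
      exact h.1 i (by omega)
  | succ n ih =>
    rw [PP, mem_image]
    constructor
    · rintro ⟨⟨w, a⟩, hp, rfl⟩
      rw [mem_product, mem_range] at hp
      obtain ⟨h1, h2, h3⟩ := (ih w).1 hp.1
      have ha := hp.2
      dsimp only at ha h1 h2 h3 ⊢
      refine ⟨fun i hi => app_gt (by omega), fun i hi => ?_, fun i j hi hj hij => ?_⟩
      · rcases Nat.lt_or_ge i n with h | h
        · have := h2 i h
          rw [app_lt h]
          split_ifs <;> omega
        · rw [show i = n by omega, app_eq]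
          exact ha
      · rcases Nat.lt_or_ge i n with h | h <;> rcases Nat.lt_or_ge j n with h' | h'
        · apply h3 i j h h'
          rw [app_lt h, app_lt h'] at hij
          split_ifs at hij <;> omega
        · rw [show j = n by omega, app_lt h, app_eq] at hij
          split_ifs at hij <;> omega
        · rw [show i = n by omega, app_lt h', app_eq] at hij
          split_ifs at hij <;> omega
        · omega
    · rintro ⟨h1, h2, h3⟩
      have hne : ∀ i, i < n → f i ≠ f n := fun i hi h => by
        have := h3 i n (by omega) (by omega) h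
        omega
      refine ⟨(fun i => if i < n then (if f i < f n then f i else f i - 1) else 0, f n), ?_, ?_⟩
      · rw [mem_product, mem_range]
        refine ⟨(ih _).2 ⟨fun i hi => if_neg (by omega), fun i hi => ?_, fun i j hi hj hij => ?_⟩,
          h2 n (by omega)⟩
        · have e1 := h2 i (by omega)
          have e2 := hne i hi
          have e3 := h2 n (by omega)
          dsimp only
          rw [if_pos hi]
          split_ifs <;> omega
        · apply h3 i j (by omega) (by omega)
          dsimp only at hij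
          rw [if_pos hi, if_pos hj] at hij
          have e2 := hne i hi
          have e3 := hne j hj
          split_ifs at hij <;> omega
      · funext i
        dsimp only
        rcases lt_trichotomy i n with h | h | h
        · rw [app_lt h, if_pos h]
          have e2 := hne i h
          split_ifs <;> omega
        · rw [h, app_eq]
        · rw [app_gt h, h1 i (by omega)]

lemma sum_PP (n : ℕ) (φ : (ℕ → ℕ) → ℕ) : ∑ f ∈ PP (n + 1), φ f =
    ∑ w ∈ PP n, ∑ a ∈ range (n + 1), φ (app n a w) := by
  rw [PP, sum_image, sum_product]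
  rintro ⟨w, a⟩ hp ⟨w', a'⟩ hp' h
  rw [mem_coe, mem_product] at hp hp'
  have hw := (mem_PP n w).1 hp.1
  have hw' := (mem_PP n w').1 hp'.1
  dsimp only at h hw hw'
  have ha : a = a' := by
    have := congrFun h n
    rwa [app_eq, app_eq] at this
  subst ha
  have hww : w = w' := by
    funext i
    rcases Nat.lt_or_ge i n with h6 | h6
    · have := congrFun h i
      rw [app_lt h6, app_lt h6] at this
      split_ifs at this <;> omega
    · rw [hw.1 i h6, hw'.1 i h6]
  rw [hww]

/-- avoidance of `2-41-3` -/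
def AvP (n : ℕ) (w : ℕ → ℕ) : Prop :=
  ∀ i j k, i < j → j + 1 < k → k < n → ¬ (w (j + 1) < w i ∧ w i < w k ∧ w k < w j)

/-- the active sites -/
noncomputable def Act (n : ℕ) (w : ℕ → ℕ) : Finset ℕ :=
  (range (n + 1)).filter fun a => ∀ i j, i < j → j + 1 < n → w (j + 1) < w i →
    ¬ (w i < a ∧ a ≤ w j)

lemma mem_Act {n : ℕ} {w : ℕ → ℕ} {a : ℕ} : a ∈ Act n w ↔ a < n + 1 ∧
    ∀ i j, i < j → j + 1 < n → w (j + 1) < w i → ¬ (w i < a ∧ a ≤ w j) := by
  rw [Act, mem_filter, mem_range]

lemma avP_app {n a : ℕ} {w : ℕ → ℕ} (ha : a < n + 1) :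
    AvP (n + 1) (app n a w) ↔ AvP n w ∧ a ∈ Act n w := by
  constructor
  · intro h
    refine ⟨fun i j k hij hjk hk => ?_, mem_Act.2 ⟨ha, fun i j hij hj h1 => ?_⟩⟩
    · have := h i j k hij hjk (by omega)
      rw [app_lt (by omega), app_lt (by omega), app_lt (by omega), app_lt (by omega)] at this
      split_ifs at this <;> omega
    · have := h i j n hij hj (by omega)
      rw [app_lt (i := j + 1) (by omega), app_lt (i := i) (by omega), app_lt (i := j) (by omega),
        app_eq] at this
      split_ifs at this <;> omega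
  · rintro ⟨h1, h2⟩ i j k hij hjk hk
    rw [mem_Act] at h2
    rcases Nat.lt_or_ge k n with h | h
    · have := h1 i j k hij hjk h
      rw [app_lt (by omega), app_lt (by omega), app_lt (by omega), app_lt (by omega)]
      split_ifs <;> omega
    · have hkn : k = n := by omega
      subst hkn
      have := h2.2 i j hij (by omega)
      rw [app_lt (i := j + 1) (by omega), app_lt (i := i) (by omega), app_lt (i := j) (by omega),
        app_eq]
      split_ifs <;> omega

/-- the avoiders -/
noncomputable def X (n : ℕ) : Finset (ℕ → ℕ) := (PP n).filter (AvP n)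

lemma sum_X (n : ℕ) (φ : (ℕ → ℕ) → ℕ) :
    ∑ f ∈ X (n + 1), φ f = ∑ w ∈ X n, ∑ a ∈ Act n w, φ (app n a w) := by
  rw [X, sum_filter, sum_PP, X, sum_filter]
  refine sum_congr rfl fun w _ => ?_
  have e : ∀ a ∈ range (n + 1), (if AvP (n + 1) (app n a w) then φ (app n a w) else 0) =
      if AvP n w ∧ a ∈ Act n w then φ (app n a w) else 0 := by
    intro a ha
    rw [mem_range] at ha
    simp only [avP_app ha]
  rw [sum_congr rfl e]
  by_cases h : AvP n w
  · simp only [h, true_and, if_true]
    rw [← sum_filter, filter_mem_eq_inter, inter_eq_right.2]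
    exact filter_subset _ _
  · simp only [h, false_and, if_false, sum_const_zero]

/-- the number of the active sites below the last entry -/
noncomputable def HP (n : ℕ) (w : ℕ → ℕ) : ℕ := ((Act n w).filter (· ≤ w (n - 1))).card

/-- the number of the active sites above the last entry -/
noncomputable def KP (n : ℕ) (w : ℕ → ℕ) : ℕ := ((Act n w).filter (w (n - 1) < ·)).card

lemma HP_add_KP (n : ℕ) (w : ℕ → ℕ) : HP n w + KP n w = (Act n w).card := by
  rw [HP, KP, ← card_filter_add_card_filter_not (s := Act n w) (· ≤ w (n - 1))]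
  congr 2
  ext x
  simp only [mem_filter, not_le]

lemma mem_Act_app {n : ℕ} (hn : 1 ≤ n) {w : ℕ → ℕ} (hw : IsP n w) {a : ℕ} (ha : a < n + 1)
    (b : ℕ) : b ∈ Act (n + 1) (app n a w) ↔
      (if b ≤ a then b else b - 1) ∈ Act n w ∧
        (b ≤ a + 1 ∨ w (n - 1) + 1 < b ∨ w (n - 1) < a) := by
  rw [mem_Act, mem_Act]
  constructor
  · rintro ⟨h1, h2⟩
    refine ⟨⟨by split_ifs <;> omega, fun i j hij hj h3 => ?_⟩, ?_⟩
    · have := h2 i j hij (by omega)
      rw [app_lt (by omega), app_lt (by omega), app_lt (by omega)] at this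
      split_ifs at this ⊢ <;> omega
    · by_contra hcon
      push Not at hcon
      obtain ⟨h3, h4, h5⟩ := hcon
      -- the value `b - 2` is attained before the last place
      have hsurj : ∃ i, i < n ∧ w i = b - 2 := by
        have hb := hw.2.1 (n - 1) (by omega)
        have himg : (range n).image w = range n := by
          apply eq_of_subset_of_card_le
          · intro x hx
            obtain ⟨i, hi, rfl⟩ := mem_image.1 hx
            rw [mem_range] at hi ⊢
            exact hw.2.1 i hi
          · rw [card_image_of_injOn]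
            intro i hi j hj hij
            rw [mem_coe, mem_range] at hi hj
            exact hw.2.2 i j hi hj hij
        have : b - 2 ∈ (range n).image w := by rw [himg, mem_range]; omega
        obtain ⟨i, hi, hi2⟩ := mem_image.1 this
        exact ⟨i, mem_range.1 hi, hi2⟩
      obtain ⟨i, hi, hi2⟩ := hsurj
      have hin : i ≠ n - 1 := by rintro rfl; omega
      have := h2 i (n - 1) (by omega) (by omega)
      rw [Nat.sub_add_cancel hn, app_lt hi, app_lt (i := n - 1) (by omega), app_eq] at this
      split_ifs at this <;> omega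
  · rintro ⟨⟨h1, h2⟩, h3⟩
    refine ⟨by split_ifs at h1 <;> omega, fun i j hij hj => ?_⟩
    rcases Nat.lt_or_ge (j + 1) n with h | h
    · have := h2 i j hij h
      rw [app_lt (by omega), app_lt (by omega), app_lt (by omega)]
      split_ifs at this ⊢ <;> omega
    · have hj2 : j = n - 1 := by omega
      subst hj2
      rw [Nat.sub_add_cancel hn, app_lt (i := i) (by omega), app_lt (i := n - 1) (by omega), app_eq]
      split_ifs <;> omega

lemma HP_app {n : ℕ} (hn : 1 ≤ n) {w : ℕ → ℕ} (hw : IsP n w) {a : ℕ} (ha : a ∈ Act n w) :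
    HP (n + 1) (app n a w) = ((Act n w).filter (· ≤ a)).card := by
  have ha2 := (mem_Act.1 ha).1
  rw [HP, Nat.add_sub_cancel, app_eq]
  congr 1
  ext b
  rw [mem_filter, mem_filter, mem_Act_app hn hw ha2]
  constructor
  · rintro ⟨⟨h1, _⟩, h2⟩
    rw [if_pos h2] at h1
    exact ⟨h1, h2⟩
  · rintro ⟨h1, h2⟩
    rw [if_pos h2]
    exact ⟨⟨h1, by omega⟩, h2⟩

lemma KP_app {n : ℕ} (hn : 1 ≤ n) {w : ℕ → ℕ} (hw : IsP n w) {a : ℕ} (ha : a ∈ Act n w) :
    KP (n + 1) (app n a w) = if ((Act n w).filter (· ≤ a)).card ≤ HP n w then KP n w + 1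
      else HP n w + KP n w + 1 - ((Act n w).filter (· ≤ a)).card := by
  have ha2 := (mem_Act.1 ha).1
  rw [KP, Nat.add_sub_cancel, app_eq]
  by_cases hc : a ≤ w (n - 1)
  · have h1 : ((Act n w).filter (· ≤ a)).card ≤ HP n w := by
      refine card_le_card fun x hx => ?_
      rw [mem_filter] at hx ⊢
      exact ⟨hx.1, hx.2.trans hc⟩
    rw [if_pos h1]
    have e : (Act (n + 1) (app n a w)).filter (a < ·) =
        insert (a + 1) (((Act n w).filter (w (n - 1) < ·)).image (· + 1)) := by
      ext b
      rw [mem_filter, mem_Act_app hn hw ha2, mem_insert, mem_image]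
      constructor
      · rintro ⟨⟨h2, h3⟩, h4⟩
        rw [if_neg (by omega)] at h2
        by_cases h5 : b = a + 1
        · exact Or.inl h5
        · exact Or.inr ⟨b - 1, mem_filter.2 ⟨h2, by omega⟩, by omega⟩
      · rintro (h2 | ⟨x, hx, rfl⟩)
        · rw [h2, if_neg (by omega), Nat.add_sub_cancel]
          exact ⟨⟨ha, by omega⟩, by omega⟩
        · rw [mem_filter] at hx
          rw [if_neg (by omega), Nat.add_sub_cancel]
          exact ⟨⟨hx.1, by omega⟩, by omega⟩
    rw [e, card_insert_of_notMem, card_image_of_injective _ (add_left_injective 1), KP]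
    intro h
    obtain ⟨x, hx, hx2⟩ := mem_image.1 h
    rw [mem_filter] at hx
    omega
  · have h1 : ¬ ((Act n w).filter (· ≤ a)).card ≤ HP n w := by
      rw [not_le]
      refine card_lt_card ⟨fun x hx => ?_, fun h => ?_⟩
      · rw [mem_filter] at hx ⊢
        exact ⟨hx.1, by omega⟩
      · have h2 : a ∈ (Act n w).filter (· ≤ a) := mem_filter.2 ⟨ha, le_rfl⟩
        have := (mem_filter.1 (h h2)).2
        omega
    rw [if_neg h1, HP_add_KP]
    have e : (Act (n + 1) (app n a w)).filter (a < ·) =
        ((Act n w).filter (a ≤ ·)).image (· + 1) := by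
      ext b
      rw [mem_filter, mem_Act_app hn hw ha2, mem_image]
      constructor
      · rintro ⟨⟨h2, h3⟩, h4⟩
        rw [if_neg (by omega)] at h2
        exact ⟨b - 1, mem_filter.2 ⟨h2, by omega⟩, by omega⟩
      · rintro ⟨x, hx, rfl⟩
        rw [mem_filter] at hx
        rw [if_neg (by omega), Nat.add_sub_cancel]
        exact ⟨⟨hx.1, by omega⟩, by omega⟩
    rw [e, card_image_of_injective _ (add_left_injective 1)]
    have h2 : ((Act n w).filter (a ≤ ·)).card + ((Act n w).filter (· ≤ a)).card =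
        (Act n w).card + 1 := by
      rw [← card_union_add_card_inter]
      congr 1
      · congr 1
        ext x
        rw [mem_union, mem_filter, mem_filter]
        constructor
        · rintro (h | h) <;> exact h.1
        · intro h
          rcases Nat.le_total a x with h' | h'
          · exact Or.inl ⟨h, h'⟩
          · exact Or.inr ⟨h, h'⟩
      · rw [card_eq_one]
        refine ⟨a, ?_⟩
        ext x
        rw [mem_inter, mem_filter, mem_filter, mem_singleton]
        constructor
        · rintro ⟨⟨_, h3⟩, ⟨_, h4⟩⟩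
          omega
        · rintro rfl
          exact ⟨⟨ha, le_rfl⟩, ⟨ha, le_rfl⟩⟩
    omega

lemma X_rule (n : ℕ) (hn : 1 ≤ n) (φ : ℕ → ℕ → ℕ) :
    ∑ f ∈ X (n + 1), φ (HP (n + 1) f) (KP (n + 1) f) =
      ∑ w ∈ X n, ∑ r ∈ Icc 1 (HP n w + KP n w),
        φ r (if r ≤ HP n w then KP n w + 1 else HP n w + KP n w + 1 - r) := by
  rw [sum_X]
  refine sum_congr rfl fun w hw => ?_
  have hw' : IsP n w := (mem_PP n w).1 (mem_filter.1 hw).1
  rw [HP_add_KP, ← sum_rank]
  refine sum_congr rfl fun a ha => ?_
  rw [HP_app hn hw' ha, KP_app hn hw' ha, HP_add_KP]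

lemma X_base (φ : ℕ → ℕ → ℕ) : ∑ f ∈ X 1, φ (HP 1 f) (KP 1 f) = φ 1 1 := by
  have h1 : X 1 = {app 0 0 fun _ => 0} := by
    rw [X, PP, PP]
    ext f
    rw [mem_filter]
    simp only [singleton_product, zero_add, range_one, map_singleton, Function.Embedding.coeFn_mk,
      image_singleton, mem_singleton]
    constructor
    · exact fun h => h.1
    · intro h
      exact ⟨h, fun i j k _ _ hk => by omega⟩
  have h2 : Act 1 (app 0 0 fun _ => 0) = {0, 1} := by
    ext b
    rw [mem_Act, mem_insert, mem_singleton]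
    constructor
    · rintro ⟨h, _⟩
      omega
    · intro h
      exact ⟨by omega, fun i j _ hj => by omega⟩
  rw [h1, sum_singleton, HP, KP, h2, Nat.sub_self, app_eq]
  congr 1

/-! ### Weak ascent sequences as functions on `ℕ` -/

/-- append the entry `c` -/
def upd (n c : ℕ) (w : ℕ → ℕ) : ℕ → ℕ := fun i => if i < n then w i else if i = n then c else 0

lemma upd_lt {n c : ℕ} {w : ℕ → ℕ} {i : ℕ} (h : i < n) : upd n c w i = w i := by
  unfold upd; rw [if_pos h]

lemma upd_eq (n c : ℕ) (w : ℕ → ℕ) : upd n c w n = c := by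
  unfold upd; rw [if_neg (by omega), if_pos rfl]

lemma upd_gt {n c : ℕ} {w : ℕ → ℕ} {i : ℕ} (h : n < i) : upd n c w i = 0 := by
  unfold upd; rw [if_neg (by omega), if_neg (by omega)]

/-- the largest value allowed at the place `i` -/
noncomputable def up (i : ℕ) (w : ℕ → ℕ) : ℕ :=
  if i = 0 then 0 else 1 + ((range (i - 1)).filter fun j => w j ≤ w (j + 1)).card

/-- all functions with `w i ≤ i` for `i < n`, extended by zero -/
noncomputable def II : ℕ → Finset (ℕ → ℕ)
  | 0 => {fun _ => 0}
  | n + 1 => (II n ×ˢ range (n + 1)).image fun p => upd n p.2 p.1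

lemma mem_II (n : ℕ) (f : ℕ → ℕ) :
    f ∈ II n ↔ (∀ i, n ≤ i → f i = 0) ∧ ∀ i, i < n → f i ≤ i := by
  induction n generalizing f with
  | zero =>
    rw [II, mem_singleton]
    constructor
    · rintro rfl
      exact ⟨fun i _ => rfl, fun i hi => by omega⟩
    · intro h
      funext i
      exact h.1 i (by omega)
  | succ n ih =>
    rw [II, mem_image]
    constructor
    · rintro ⟨⟨w, c⟩, hp, rfl⟩
      rw [mem_product, mem_range] at hp
      obtain ⟨h1, h2⟩ := (ih w).1 hp.1
      have hc := hp.2
      dsimp only at hc h1 h2 ⊢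
      refine ⟨fun i hi => upd_gt (by omega), fun i hi => ?_⟩
      rcases Nat.lt_or_ge i n with h | h
      · rw [upd_lt h]; exact h2 i h
      · rw [show i = n by omega, upd_eq]; omega
    · rintro ⟨h1, h2⟩
      refine ⟨(fun i => if i < n then f i else 0, f n), ?_, ?_⟩
      · rw [mem_product, mem_range]
        refine ⟨(ih _).2 ⟨fun i hi => if_neg (by omega), fun i hi => ?_⟩, ?_⟩
        · dsimp only
          rw [if_pos hi]
          exact h2 i (by omega)
        · have := h2 n (by omega)
          dsimp only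
          omega
      · funext i
        dsimp only
        rcases lt_trichotomy i n with h | h | h
        · rw [upd_lt h, if_pos h]
        · rw [h, upd_eq]
        · rw [upd_gt h, h1 i (by omega)]

lemma sum_II (n : ℕ) (φ : (ℕ → ℕ) → ℕ) : ∑ f ∈ II (n + 1), φ f =
    ∑ w ∈ II n, ∑ c ∈ range (n + 1), φ (upd n c w) := by
  rw [II, sum_image, sum_product]
  rintro ⟨w, a⟩ hp ⟨w', a'⟩ hp' h
  rw [mem_coe, mem_product] at hp hp'
  have hw := (mem_II n w).1 hp.1
  have hw' := (mem_II n w').1 hp'.1
  dsimp only at h hw hw'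
  have ha : a = a' := by
    have := congrFun h n
    rwa [upd_eq, upd_eq] at this
  subst ha
  have hww : w = w' := by
    funext i
    rcases Nat.lt_or_ge i n with h6 | h6
    · have := congrFun h i
      rwa [upd_lt h6, upd_lt h6] at this
    · rw [hw.1 i h6, hw'.1 i h6]
  rw [hww]

lemma up_upd {n c : ℕ} {w : ℕ → ℕ} {i : ℕ} (h : i ≤ n) : up i (upd n c w) = up i w := by
  unfold up
  split_ifs with h0
  · rfl
  · congr 2
    apply filter_congr
    intro j hj
    rw [mem_range] at hj
    rw [upd_lt (by omega), upd_lt (by omega)]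

lemma up_succ {n : ℕ} (hn : 1 ≤ n) (w : ℕ → ℕ) :
    up (n + 1) w = up n w + if w (n - 1) ≤ w n then 1 else 0 := by
  obtain ⟨m, rfl⟩ : ∃ m, n = m + 1 := ⟨n - 1, by omega⟩
  unfold up
  rw [if_neg (by omega), if_neg (by omega), Nat.add_sub_cancel, Nat.add_sub_cancel, range_add_one,
    filter_insert]
  split_ifs with h
  · rw [card_insert_of_notMem (by simp)]
    omega
  · omega

lemma up_le {n : ℕ} (w : ℕ → ℕ) : up n w ≤ n := by
  unfold up
  split_ifs with h
  · omega
  · have := card_le_card (filter_subset (fun j => w j ≤ w (j + 1)) (range (n - 1)))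
    rw [card_range] at this
    omega

/-- the weak ascent condition -/
def WA (n : ℕ) (w : ℕ → ℕ) : Prop := ∀ i, i < n → w i ≤ up i w

/-- avoidance of `210` -/
def Av210 (n : ℕ) (w : ℕ → ℕ) : Prop :=
  ∀ i j k, i < j → j < k → k < n → ¬ (w k < w j ∧ w j < w i)

/-- the values that may be appended -/
noncomputable def C (n : ℕ) (w : ℕ → ℕ) : Finset ℕ :=
  (range (n + 1)).filter fun c => c ≤ up n w ∧ ∀ i j, i < j → j < n → w j < w i → w j ≤ c

lemma mem_C {n : ℕ} {w : ℕ → ℕ} {c : ℕ} : c ∈ C n w ↔ c < n + 1 ∧ c ≤ up n w ∧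
    ∀ i j, i < j → j < n → w j < w i → w j ≤ c := by
  rw [C, mem_filter, mem_range]

lemma upd_ok {n c : ℕ} {w : ℕ → ℕ} (hc : c < n + 1) :
    (WA (n + 1) (upd n c w) ∧ Av210 (n + 1) (upd n c w)) ↔
      (WA n w ∧ Av210 n w) ∧ c ∈ C n w := by
  rw [mem_C]
  constructor
  · rintro ⟨h1, h2⟩
    refine ⟨⟨fun i hi => ?_, fun i j k hij hjk hk => ?_⟩, hc, ?_, fun i j hij hj h3 => ?_⟩
    · have := h1 i (by omega)
      rwa [up_upd (by omega), upd_lt hi] at this
    · have := h2 i j k hij hjk (by omega)
      rwa [upd_lt (by omega), upd_lt (by omega), upd_lt (by omega)] at this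
    · have := h1 n (by omega)
      rwa [up_upd le_rfl, upd_eq] at this
    · have := h2 i j n hij hj (by omega)
      rw [upd_eq, upd_lt (i := j) hj, upd_lt (i := i) (by omega)] at this
      omega
  · rintro ⟨⟨h1, h2⟩, _, h3, h4⟩
    refine ⟨fun i hi => ?_, fun i j k hij hjk hk => ?_⟩
    · rcases Nat.lt_or_ge i n with h | h
      · rw [up_upd (by omega), upd_lt h]
        exact h1 i h
      · rw [show i = n by omega, up_upd le_rfl, upd_eq]
        exact h3
    · rcases Nat.lt_or_ge k n with h | h
      · rw [upd_lt (by omega), upd_lt (by omega), upd_lt (by omega)]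
        exact h2 i j k hij hjk h
      · have hkn : k = n := by omega
        subst hkn
        rw [upd_eq, upd_lt (i := j) hjk, upd_lt (i := i) (by omega)]
        rintro ⟨h5, h6⟩
        have := h4 i j hij hjk h6
        omega

/-- the sequences of the question -/
noncomputable def Y (n : ℕ) : Finset (ℕ → ℕ) := (II n).filter fun w => WA n w ∧ Av210 n w

lemma sum_Y (n : ℕ) (φ : (ℕ → ℕ) → ℕ) :
    ∑ f ∈ Y (n + 1), φ f = ∑ w ∈ Y n, ∑ c ∈ C n w, φ (upd n c w) := by
  rw [Y, sum_filter, sum_II, Y, sum_filter]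
  refine sum_congr rfl fun w _ => ?_
  have e : ∀ c ∈ range (n + 1), (if WA (n + 1) (upd n c w) ∧ Av210 (n + 1) (upd n c w) then
      φ (upd n c w) else 0) = if (WA n w ∧ Av210 n w) ∧ c ∈ C n w then φ (upd n c w) else 0 := by
    intro c hc
    rw [mem_range] at hc
    simp only [upd_ok hc]
  rw [sum_congr rfl e]
  by_cases h : WA n w ∧ Av210 n w
  · simp only [h, true_and, if_true, and_self]
    rw [← sum_filter, filter_mem_eq_inter, inter_eq_right.2]
    exact filter_subset _ _
  · simp only [h, false_and, if_false, sum_const_zero]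

/-- the largest entry -/
noncomputable def mx (n : ℕ) (w : ℕ → ℕ) : ℕ := (range n).sup w

/-- the largest entry that is smaller than an earlier entry -/
noncomputable def lo (n : ℕ) (w : ℕ → ℕ) : ℕ := ((range n).filter fun j => ∃ i, i < j ∧ w j < w i).sup w

lemma lo_le {n : ℕ} {w : ℕ → ℕ} {c : ℕ} :
    lo n w ≤ c ↔ ∀ i j, i < j → j < n → w j < w i → w j ≤ c := by
  unfold lo
  rw [Finset.sup_le_iff]
  constructor
  · intro h i j hij hj h1
    exact h j (mem_filter.2 ⟨mem_range.2 hj, i, hij, h1⟩)
  · intro h j hj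
    rw [mem_filter, mem_range] at hj
    obtain ⟨h1, i, h2, h3⟩ := hj
    exact h i j h2 h1 h3

lemma mx_le {n : ℕ} {w : ℕ → ℕ} {c : ℕ} : mx n w ≤ c ↔ ∀ i, i < n → w i ≤ c := by
  unfold mx
  rw [Finset.sup_le_iff]
  simp only [mem_range]

lemma le_mx {n : ℕ} {w : ℕ → ℕ} {i : ℕ} (h : i < n) : w i ≤ mx n w := mx_le.1 le_rfl i h

lemma exists_mx {n : ℕ} (hn : 1 ≤ n) (w : ℕ → ℕ) : ∃ i, i < n ∧ w i = mx n w := by
  have h : (range n).Nonempty := ⟨0, mem_range.2 (by omega)⟩
  obtain ⟨i, hi, h2⟩ := exists_mem_eq_sup (range n) h w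
  exact ⟨i, mem_range.1 hi, h2.symm⟩

lemma C_eq {n : ℕ} (w : ℕ → ℕ) : C n w = Icc (lo n w) (up n w) := by
  ext c
  rw [mem_C, mem_Icc, lo_le]
  have := up_le (n := n) w
  constructor
  · rintro ⟨h1, h2, h3⟩
    exact ⟨h3, h2⟩
  · rintro ⟨h3, h2⟩
    exact ⟨by omega, h2, h3⟩

lemma lt_up {n : ℕ} {w : ℕ → ℕ} (h : WA n w) : ∀ i, i < n → w i + 1 ≤ up (i + 1) w := by
  intro i
  induction i with
  | zero =>
    intro hi
    have h1 := h 0 hi
    have h2 : up 0 w = 0 := by unfold up; rw [if_pos rfl]
    have h3 : up (0 + 1) w = 1 := by unfold up; simp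
    omega
  | succ i ih =>
    intro hi
    have h1 := ih (by omega)
    have h2 := h (i + 1) hi
    have h3 := up_succ (n := i + 1) (by omega) w
    rw [Nat.add_sub_cancel] at h3
    split_ifs at h3 <;> omega

lemma up_mono {w : ℕ → ℕ} {a b : ℕ} (ha : 1 ≤ a) (h : a ≤ b) : up a w ≤ up b w := by
  induction b, h using Nat.le_induction with
  | base => exact le_rfl
  | succ b hb ih =>
    rw [up_succ (by omega)]
    omega

lemma mx_lt_up {n : ℕ} (hn : 1 ≤ n) {w : ℕ → ℕ} (h : WA n w) : mx n w + 1 ≤ up n w := by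
  obtain ⟨i, hi, h1⟩ := exists_mx hn w
  have h2 := lt_up h i hi
  have h3 : up (i + 1) w ≤ up n w := up_mono (by omega) (by omega)
  omega

lemma lo_le_last {n : ℕ} (hn : 1 ≤ n) {w : ℕ → ℕ} (h : Av210 n w) : lo n w ≤ w (n - 1) := by
  rw [lo_le]
  intro i j hij hj h1
  by_contra hcon
  have : j ≠ n - 1 := by rintro rfl; omega
  exact h i j (n - 1) hij (by omega) (by omega) ⟨by omega, h1⟩

lemma lo_eq_last {n : ℕ} (hn : 1 ≤ n) {w : ℕ → ℕ} (h : Av210 n w) (h1 : w (n - 1) ≠ mx n w) :
    lo n w = w (n - 1) := by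
  apply le_antisymm (lo_le_last hn h)
  obtain ⟨i, hi, h2⟩ := exists_mx hn w
  have h3 := le_mx (w := w) (i := n - 1) (n := n) (by omega)
  have h4 : i ≠ n - 1 := by rintro rfl; omega
  exact lo_le.1 le_rfl i (n - 1) (by omega) (by omega) (by omega)

lemma mx_upd {n c : ℕ} (w : ℕ → ℕ) : mx (n + 1) (upd n c w) = max (mx n w) c := by
  apply le_antisymm
  · rw [mx_le]
    intro i hi
    rcases Nat.lt_or_ge i n with h | h
    · rw [upd_lt h]; exact (le_mx h).trans (le_max_left _ _)
    · rw [show i = n by omega, upd_eq]; exact le_max_right _ _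
  · apply max_le
    · rw [mx_le]
      intro i hi
      have := le_mx (w := upd n c w) (i := i) (n := n + 1) (by omega)
      rwa [upd_lt hi] at this
    · have := le_mx (w := upd n c w) (i := n) (n := n + 1) (by omega)
      rwa [upd_eq] at this

lemma lo_upd {n c : ℕ} (hn : 1 ≤ n) (w : ℕ → ℕ) (hc : lo n w ≤ c) :
    lo (n + 1) (upd n c w) = if c < mx n w then c else lo n w := by
  split_ifs with h
  · apply le_antisymm
    · rw [lo_le]
      intro i j hij hj h1
      rcases Nat.lt_or_ge j n with h2 | h2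
      · rw [upd_lt h2] at h1 ⊢
        rw [upd_lt (by omega)] at h1
        exact lo_le.1 hc i j hij h2 h1
      · rw [show j = n by omega, upd_eq]
    · obtain ⟨i, hi, h1⟩ := exists_mx hn w
      have := lo_le.1 (le_refl (lo (n + 1) (upd n c w))) i n hi (by omega)
        (by rw [upd_eq, upd_lt hi]; omega)
      rwa [upd_eq] at this
  · apply le_antisymm
    · rw [lo_le]
      intro i j hij hj h1
      rcases Nat.lt_or_ge j n with h2 | h2
      · rw [upd_lt h2] at h1 ⊢
        rw [upd_lt (by omega)] at h1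
        exact lo_le.1 le_rfl i j hij h2 h1
      · exfalso
        have hjn : j = n := by omega
        subst hjn
        rw [upd_eq, upd_lt hij] at h1
        have := le_mx (w := w) hij
        omega
    · rw [lo_le]
      intro i j hij hj h1
      have := lo_le.1 (le_refl (lo (n + 1) (upd n c w))) i j hij (by omega)
        (by rw [upd_lt hj, upd_lt (by omega)]; exact h1)
      rwa [upd_lt hj] at this

/-- the first label -/
noncomputable def HY (n : ℕ) (w : ℕ → ℕ) : ℕ :=
  if w (n - 1) = mx n w then mx n w - lo n w + 1 else mx n w - lo n w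

/-- the second label -/
noncomputable def KY (n : ℕ) (w : ℕ → ℕ) : ℕ :=
  if w (n - 1) = mx n w then up n w - mx n w else up n w - mx n w + 1

lemma Y_rule (n : ℕ) (hn : 1 ≤ n) (φ : ℕ → ℕ → ℕ) :
    ∑ f ∈ Y (n + 1), φ (HY (n + 1) f) (KY (n + 1) f) =
      ∑ w ∈ Y n, ∑ r ∈ Icc 1 (HY n w + KY n w),
        φ r (if r ≤ HY n w then KY n w + 1 else HY n w + KY n w + 1 - r) := by
  rw [sum_Y]
  refine sum_congr rfl fun w hw => ?_
  obtain ⟨h1, h2⟩ := (mem_filter.1 hw).2
  have a1 := mx_lt_up hn h1
  have a2 := lo_le_last hn h2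
  have a3 := le_mx (w := w) (i := n - 1) (n := n) (by omega)
  have a4 := lo_eq_last hn h2
  have hHK : HY n w + KY n w = up n w - lo n w + 1 := by
    unfold HY KY
    split_ifs <;> omega
  rw [hHK, C_eq]
  refine sum_nbij' (fun c => if mx n w ≤ c then c - lo n w + 1 else mx n w - c)
    (fun r => if mx n w - lo n w < r then r + lo n w - 1 else mx n w - r) ?_ ?_ ?_ ?_ ?_
  · intro c hc
    rw [mem_Icc] at hc ⊢
    split_ifs <;> omega
  · intro r hr
    rw [mem_Icc] at hr ⊢
    split_ifs <;> omega
  · intro c hc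
    rw [mem_Icc] at hc
    split_ifs <;> omega
  · intro r hr
    rw [mem_Icc] at hr
    split_ifs <;> omega
  · intro c hc
    rw [mem_Icc] at hc
    have b1 := mx_upd (n := n) (c := c) w
    have b2 := lo_upd hn w hc.1
    have b3 : up (n + 1) (upd n c w) = up n w + if w (n - 1) ≤ c then 1 else 0 := by
      rw [up_succ hn, up_upd le_rfl, upd_eq, upd_lt (by omega)]
    have b4 : HY (n + 1) (upd n c w) = if mx n w ≤ c then c - lo n w + 1 else mx n w - c := by
      unfold HY
      rw [Nat.add_sub_cancel, upd_eq, b1, b2]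
      split_ifs <;> omega
    have b5 : KY (n + 1) (upd n c w) =
        if (if mx n w ≤ c then c - lo n w + 1 else mx n w - c) ≤ HY n w then KY n w + 1
          else up n w - lo n w + 1 + 1 - (if mx n w ≤ c then c - lo n w + 1 else mx n w - c) := by
      unfold KY HY
      rw [Nat.add_sub_cancel, upd_eq, b1, b3]
      rcases Nat.lt_or_ge c (mx n w) with h5 | h5
      · rw [max_eq_left h5.le, if_neg (by omega : ¬ mx n w ≤ c), if_neg (by omega : c ≠ mx n w)]
        split_ifs <;> omega
      · rw [max_eq_right h5, if_pos h5, if_pos rfl]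
        split_ifs <;> omega
    rw [b4, b5]

lemma Y_base (φ : ℕ → ℕ → ℕ) : ∑ f ∈ Y 1, φ (HY 1 f) (KY 1 f) = φ 1 1 := by
  have h1 : Y 1 = {upd 0 0 fun _ => 0} := by
    rw [Y, II, II]
    ext f
    rw [mem_filter]
    simp only [singleton_product, zero_add, range_one, map_singleton, Function.Embedding.coeFn_mk,
      image_singleton, mem_singleton]
    constructor
    · exact fun h => h.1
    · intro h
      refine ⟨h, fun i hi => ?_, fun i j k _ _ hk => by omega⟩
      rw [h, show i = 0 by omega, upd_eq]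
      exact Nat.zero_le _
  have h2 : mx 1 (upd 0 0 fun _ => 0) = 0 := by
    apply Nat.le_zero.1
    rw [mx_le]
    intro i hi
    rw [show i = 0 by omega, upd_eq]
  have h3 : lo 1 (upd 0 0 fun _ => 0) = 0 := by
    apply Nat.le_zero.1
    rw [lo_le]
    intro i j hij hj
    omega
  have h4 : up 1 (upd 0 0 fun _ => 0) = 1 := by
    unfold up
    simp
  rw [h1, sum_singleton, HY, KY, h2, h3, h4, Nat.sub_self, upd_eq]
  simp

theorem card_eq (t : ℕ) : (Y (t + 1)).card = (X (t + 1)).card := by
  rw [card_of_rule X HP KP X_base X_rule, card_of_rule Y HY KY Y_base Y_rule]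

/-! ### The two families of the question -/

/-- extension by zero -/
def ext (n : ℕ) (w : Fin n → ℕ) : ℕ → ℕ := fun i => if h : i < n then w ⟨i, h⟩ else 0

lemma ext_val {n : ℕ} (w : Fin n → ℕ) (i : Fin n) : ext n w i = w i := by
  unfold ext
  rw [dif_pos i.2]

lemma ext_of_lt {n : ℕ} (w : Fin n → ℕ) {i : ℕ} (h : i < n) : ext n w i = w ⟨i, h⟩ := by
  unfold ext
  rw [dif_pos h]

lemma ext_of_ge {n : ℕ} (w : Fin n → ℕ) {i : ℕ} (h : n ≤ i) : ext n w i = 0 := by
  unfold ext
  rw [dif_neg (by omega)]

lemma wasc_eq {n : ℕ} (a : Fin n → ℕ) {i : ℕ} (hi : i < n) :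
    wasc a i = ((range (i - 1)).filter fun j => ext n a j ≤ ext n a (j + 1)).card := by
  rw [wasc, ← Fintype.card_coe, ← Nat.card_eq_fintype_card]
  refine Nat.card_congr
    { toFun := fun j => ⟨j.1.val, ?_⟩
      invFun := fun j => ⟨⟨j.1, ?_⟩, ?_⟩
      left_inv := fun j => rfl
      right_inv := fun j => rfl }
  · obtain ⟨k, hk1, hk2, hk3⟩ := j.2
    rw [mem_filter, mem_range, ext_val, ← hk1, ext_val]
    exact ⟨by omega, hk3⟩
  · have := (mem_filter.1 j.2).1
    rw [mem_range] at this
    omega
  · obtain ⟨h1, h2⟩ := mem_filter.1 j.2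
    rw [mem_range] at h1
    refine ⟨⟨j.1 + 1, by omega⟩, rfl, by dsimp only; omega, ?_⟩
    rwa [ext_of_lt a (by omega), ext_of_lt a (by omega)] at h2

lemma weakAscent_iff {n : ℕ} (a : Fin n → ℕ) : IsWeakAscent a ↔ WA n (ext n a) := by
  constructor
  · intro h i hi
    have h1 := h ⟨i, hi⟩
    dsimp only at h1
    rw [wasc_eq a hi] at h1
    rw [ext_of_lt a hi, up]
    split_ifs with h2
    · exact (h1.1 h2).le
    · exact h1.2 h2
  · intro h i
    have h1 := h i.val i.2
    rw [ext_val, up] at h1
    rw [wasc_eq a i.2]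
    constructor
    · intro h2
      rw [if_pos h2] at h1
      omega
    · intro h2
      rw [if_neg h2] at h1
      exact h1

lemma avoids210_iff {n : ℕ} (a : Fin n → ℕ) : Avoids210 a ↔ Av210 n (ext n a) := by
  constructor
  · intro h i j k hij hjk hk
    rw [ext_of_lt a hk, ext_of_lt a (hjk.trans hk), ext_of_lt a (hij.trans (hjk.trans hk))]
    exact h _ _ _ (by exact hij) (by exact hjk)
  · intro h i j k hij hjk
    have := h i j k hij hjk k.2
    rwa [ext_val, ext_val, ext_val] at this

lemma card_Y (n : ℕ) :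
    Nat.card {a : Fin n → ℕ // IsWeakAscent a ∧ Avoids210 a} = (Y n).card := by
  rw [← Fintype.card_coe, ← Nat.card_eq_fintype_card]
  refine Nat.card_congr
    { toFun := fun a => ⟨ext n a.1, ?_⟩
      invFun := fun f => ⟨fun i => f.1 i.val, ?_⟩
      left_inv := fun a => ?_
      right_inv := fun f => ?_ }
  · have h1 := (weakAscent_iff a.1).1 a.2.1
    refine mem_filter.2 ⟨(mem_II n _).2 ⟨fun i hi => ext_of_ge _ hi, fun i hi => ?_⟩, h1,
      (avoids210_iff a.1).1 a.2.2⟩
    exact (h1 i hi).trans (up_le _)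
  · obtain ⟨h1, h2, h3⟩ := mem_filter.1 f.2
    have e : ext n (fun i : Fin n => f.1 i.val) = f.1 := by
      funext i
      rcases Nat.lt_or_ge i n with h | h
      · rw [ext_of_lt _ h]
      · rw [ext_of_ge _ h, ((mem_II n _).1 h1).1 i h]
    exact ⟨(weakAscent_iff _).2 (by rw [e]; exact h2), (avoids210_iff _).2 (by rw [e]; exact h3)⟩
  · apply Subtype.ext
    funext i
    exact ext_val a.1 i
  · apply Subtype.ext
    funext i
    dsimp only
    rcases Nat.lt_or_ge i n with h | h
    · rw [ext_of_lt _ h]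
    · rw [ext_of_ge _ h, ((mem_II n _).1 (mem_filter.1 f.2).1).1 i h]

lemma avoids2413_iff {n : ℕ} (π : Equiv.Perm (Fin n)) :
    Avoids2413 π ↔ AvP n (ext n fun i => (π i).val) := by
  constructor
  · intro h i j k hij hjk hk
    rw [ext_of_lt _ hk, ext_of_lt _ (hjk.trans hk), ext_of_lt _ (show j < n by omega),
      ext_of_lt _ (show i < n by omega)]
    exact h ⟨i, by omega⟩ ⟨j, by omega⟩ ⟨j + 1, by omega⟩ ⟨k, hk⟩ hij rfl hjk
  · intro h i j j' k hij hj' hjk
    have := h i j k hij (by rw [← hj']; exact hjk) k.2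
    rw [← hj', ext_val, ext_val, ext_val, ext_val] at this
    exact this

lemma card_X (n : ℕ) : Nat.card {π : Equiv.Perm (Fin n) // Avoids2413 π} = (X n).card := by
  rw [← Fintype.card_coe, ← Nat.card_eq_fintype_card]
  have hmem : ∀ π : Equiv.Perm (Fin n), IsP n (ext n fun i => (π i).val) := by
    intro π
    refine ⟨fun i hi => ext_of_ge _ hi, fun i hi => ?_, fun i j hi hj hij => ?_⟩
    · rw [ext_of_lt _ hi]
      exact (π _).2
    · rw [ext_of_lt _ hi, ext_of_lt _ hj] at hij
      have := π.injective (Fin.ext hij)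
      exact congrArg Fin.val this
  refine Nat.card_congr (Equiv.ofBijective (fun π => ⟨ext n fun i => (π.1 i).val,
    mem_filter.2 ⟨(mem_PP n _).2 (hmem π.1), (avoids2413_iff π.1).1 π.2⟩⟩) ⟨?_, ?_⟩)
  · intro π π' h
    have h1 := Subtype.ext_iff.1 h
    dsimp only at h1
    apply Subtype.ext
    apply Equiv.ext
    intro i
    have h2 := congrFun h1 i.val
    rw [ext_val, ext_val] at h2
    exact Fin.ext h2
  · intro f
    obtain ⟨h1, h2⟩ := mem_filter.1 f.2
    obtain ⟨g1, g2, g3⟩ := (mem_PP n _).1 h1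
    have hinj : Function.Injective fun i : Fin n => (⟨f.1 i.val, g2 i.val i.2⟩ : Fin n) := by
      intro i j hij
      have := congrArg Fin.val hij
      exact Fin.ext (g3 i.val j.val i.2 j.2 this)
    have hbij := Finite.injective_iff_bijective.1 hinj
    have e : (ext n fun i => ((Equiv.ofBijective _ hbij) i).val) = f.1 := by
      funext i
      rcases Nat.lt_or_ge i n with h | h
      · rw [ext_of_lt _ h]
        rfl
      · rw [ext_of_ge _ h, g1 i h]
    exact ⟨⟨Equiv.ofBijective _ hbij, (avoids2413_iff _).2 (by rw [e]; exact h2)⟩,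
      Subtype.ext e⟩

/-- **Weak ascent sequences avoiding `210` and permutations avoiding `2-41-3` are equinumerous.** -/
theorem result (n : ℕ) (hn : 1 ≤ n) :
    Nat.card {a : Fin n → ℕ // IsWeakAscent a ∧ Avoids210 a} =
      Nat.card {π : Equiv.Perm (Fin n) // Avoids2413 π} := by
  obtain ⟨t, rfl⟩ : ∃ t, n = t + 1 := ⟨n - 1, by omega⟩
  rw [card_Y, card_X, card_eq]

end Pool.Agent.Results.MP_5aad23_co.SemiBaxter
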